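import Pool.Agent.N828.DS.Ring
import Pool.Agent.N828.DS.Liou

set_option autoImplicit false

/-! # Doyle's question on hexagonal circle packings

Every locally univalent circle packing for the hexagonal complex is the regular hexagonal packing or
a Doyle spiral.

Outline.  The ring lemma holds for the (univalent) flowers, so `log R` is Lipschitz.  For a lattice
vector `e` the function `u = log R(· + e) - log R` is therefore bounded, and the variational
principle (the angles of a triangle of mutually tangent circles are the gradient of a concave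
function of the logarithms of the radii) shows that `u` has finite energy and then that it is
constant, since the hexagonal lattice is recurrent. -/

namespace Pool.Agent.Results.MP_5725d1_gt.DoyleRigidity

open Real Finset

/-- The neighbours of the vertex `v_{n,m}` (the lattice point `n + m ω`, `ω = e^{iπ/3}`) in
anticlockwise order: `v_{n+1,m}`, `v_{n,m+1}`, `v_{n-1,m+1}`, `v_{n-1,m}`, `v_{n,m-1}`,
`v_{n+1,m-1}`. -/
def nb (v : ℤ × ℤ) (i : Fin 6) : ℤ × ℤ :=
  v + (![(1, 0), (0, 1), (-1, 1), (-1, 0), (0, -1), (1, -1)] : Fin 6 → ℤ × ℤ) i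

/-- The angle at `v` of the face spanned by `v` and its neighbours `u`, `w` with the numbers `i` and
`i + 1` (modulo 6): the angle opposite the side `R u + R w` in the Euclidean triangle with the sides
`R v + R u`, `R v + R w`, `R u + R w` (law of cosines). -/
noncomputable def faceAngle (R : ℤ × ℤ → ℝ) (v : ℤ × ℤ) (i : Fin 6) : ℝ :=
  arccos (((R v + R (nb v i)) ^ 2 + (R v + R (nb v (i + 1))) ^ 2 -
      (R (nb v i) + R (nb v (i + 1))) ^ 2) /
    (2 * (R v + R (nb v i)) * (R v + R (nb v (i + 1)))))

/-- Packing labels: positive, and the six angles at every vertex sum up to `2π`. -/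
def IsPackingLabel (R : ℤ × ℤ → ℝ) : Prop :=
  (∀ v, 0 < R v) ∧ ∀ v, ∑ i : Fin 6, faceAngle R v i = 2 * π

/-- The centre of the petal number `i` of the flower at `v`, when the centre of the circle of `v` is
`0` and the centre of the petal number `0` is a positive real number: the petal `i` is seen from `0`
in the direction given by the sum of the face angles number `0, ..., i - 1` at `v`. -/
noncomputable def petalCentre (R : ℤ × ℤ → ℝ) (v : ℤ × ℤ) (i : Fin 6) : ℂ :=
  ((R v + R (nb v i) : ℝ) : ℂ) *
    Complex.exp (((∑ l ∈ Finset.Iio i, faceAngle R v l : ℝ) : ℂ) * Complex.I)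

/-- The interiors of the seven circles of the flower at `v`. -/
noncomputable def flower (R : ℤ × ℤ → ℝ) (v : ℤ × ℤ) : Option (Fin 6) → Set ℂ
  | none => Metric.ball 0 (R v)
  | some i => Metric.ball (petalCentre R v i) (R (nb v i))

/-- The packing is locally univalent: the seven circles of every flower have disjoint interiors. -/
def LocallyUnivalent (R : ℤ × ℤ → ℝ) : Prop :=
  ∀ v, Pairwise fun i j => Disjoint (flower R v i) (flower R v j)

open Pool.Agent.N828.DS

lemma nb_eq (v : ℤ × ℤ) (i : Fin 6) : nb v i = v + dir i := rfl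

lemma faceAngle_eq (R : ℤ × ℤ → ℝ) (v : ℤ × ℤ) (i : Fin 6) :
    faceAngle R v i = ang (R v) (R (v + dir i)) (R (v + dir (i + 1))) := rfl

lemma norm_sq_sub (x y s t : ℝ) :
    ‖((x : ℝ) : ℂ) * Complex.exp (((s : ℝ) : ℂ) * Complex.I) -
      ((y : ℝ) : ℂ) * Complex.exp (((t : ℝ) : ℂ) * Complex.I)‖ ^ 2 =
      x ^ 2 + y ^ 2 - 2 * x * y * cos (s - t) := by
  rw [← Complex.normSq_eq_norm_sq, Complex.normSq_apply, Complex.exp_mul_I, Complex.exp_mul_I,
    ← Complex.ofReal_cos, ← Complex.ofReal_sin, ← Complex.ofReal_cos, ← Complex.ofReal_sin]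
  simp only [Complex.sub_re, Complex.sub_im, Complex.mul_re, Complex.mul_im, Complex.add_re,
    Complex.add_im, Complex.ofReal_re, Complex.ofReal_im, Complex.I_re, Complex.I_im]
  rw [cos_sub]
  have h1 := sin_sq_add_cos_sq s
  have h2 := sin_sq_add_cos_sq t
  linear_combination x ^ 2 * h1 + y ^ 2 * h2

/-- radii of the petals, periodic index -/
noncomputable def bb (R : ℤ × ℤ → ℝ) (v : ℤ × ℤ) (n : ℕ) : ℝ := R (v + dir (Fin.ofNat 6 n))

lemma ofNat_add_six (n : ℕ) : Fin.ofNat 6 (n + 6) = Fin.ofNat 6 n := by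
  apply Fin.ext; simp [Fin.ofNat]

lemma ofNat_succ (n : ℕ) : Fin.ofNat 6 (n + 1) = Fin.ofNat 6 n + 1 := by
  apply Fin.ext; simp [Fin.ofNat, Fin.val_add]

lemma bb_per (R : ℤ × ℤ → ℝ) (v : ℤ × ℤ) (n : ℕ) : bb R v (n + 6) = bb R v n := by
  unfold bb
  rw [ofNat_add_six]

lemma Psi_eq (R : ℤ × ℤ → ℝ) (v : ℤ × ℤ) (n : ℕ) :
    Psi (R v) (bb R v) n = ∑ l ∈ range n, faceAngle R v (Fin.ofNat 6 l) := by
  unfold Psi
  apply sum_congr rfl
  intro l _
  rw [faceAngle_eq]
  unfold bb
  rw [ofNat_succ]

lemma Iio_eq (f : Fin 6 → ℝ) (i : Fin 6) :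
    ∑ l ∈ range i.val, f (Fin.ofNat 6 l) = ∑ l ∈ Finset.Iio i, f l := by
  have h : Finset.Iio i = (range i.val).image (Fin.ofNat 6) := by
    revert i; decide
  rw [h, sum_image]
  intro x hx y hy hxy
  have hx' : x < i.val := by simpa using hx
  have hy' : y < i.val := by simpa using hy
  have := congrArg Fin.val hxy
  simp only [Fin.ofNat] at this
  rw [Nat.mod_eq_of_lt (by omega), Nat.mod_eq_of_lt (by omega)] at this
  exact this

lemma fl_of {R : ℤ × ℤ → ℝ} (h1 : IsPackingLabel R) (h2 : LocallyUnivalent R) (v : ℤ × ℤ) :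
    Fl (R v) (bb R v) := by
  have hpos := h1.1
  have hsum : Psi (R v) (bb R v) 6 = 2 * π := by
    rw [Psi_eq, ← h1.2 v, Fin.sum_univ_six]
    simp only [sum_range_succ, sum_range_zero, zero_add]
    rfl
  have hPper : ∀ n, Psi (R v) (bb R v) (n + 6) = Psi (R v) (bb R v) n + 2 * π := by
    intro n
    induction n with
    | zero => rw [zero_add, hsum]; simp [Psi]
    | succ n ih =>
      have e1 : Psi (R v) (bb R v) (n + 1 + 6) = Psi (R v) (bb R v) (n + 6) +
          ang (R v) (bb R v (n + 6)) (bb R v (n + 1 + 6)) := by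
        unfold Psi; rw [show n + 1 + 6 = (n + 6) + 1 by ring, sum_range_succ]
      have e2 : Psi (R v) (bb R v) (n + 1) = Psi (R v) (bb R v) n +
          ang (R v) (bb R v n) (bb R v (n + 1)) := by
        unfold Psi; rw [sum_range_succ]
      rw [e1, e2, ih, bb_per, bb_per]
      ring
  have hPmod : ∀ n, Psi (R v) (bb R v) n = Psi (R v) (bb R v) (n % 6) + (n / 6 : ℕ) * (2 * π) := by
    intro n
    have key : ∀ k s, Psi (R v) (bb R v) (s + 6 * k) = Psi (R v) (bb R v) s + k * (2 * π) := by
      intro k s
      induction k with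
      | zero => simp
      | succ k ih =>
        rw [show s + 6 * (k + 1) = (s + 6 * k) + 6 by ring, hPper, ih]
        push_cast; ring
    conv_lhs => rw [← Nat.mod_add_div n 6]
    rw [key]
  have hbmod : ∀ n, bb R v (n % 6) = bb R v n := by
    intro n
    have key : ∀ k s, bb R v (s + 6 * k) = bb R v s := by
      intro k s
      induction k with
      | zero => rfl
      | succ k ih => rw [show s + 6 * (k + 1) = (s + 6 * k) + 6 by ring, bb_per, ih]
    conv_rhs => rw [← Nat.mod_add_div n 6]
    rw [key]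
  refine ⟨hpos v, fun n => hpos _, bb_per R v, hsum, ?_⟩
  intro n m hnm
  have hsg : ∀ n, sg (R v) (bb R v) n = sg (R v) (bb R v) (n % 6) := fun n => by
    unfold sg; rw [hbmod]
  have hcos : cos (Psi (R v) (bb R v) n - Psi (R v) (bb R v) m) =
      cos (Psi (R v) (bb R v) (n % 6) - Psi (R v) (bb R v) (m % 6)) := by
    rw [hPmod n, hPmod m]
    have e : Psi (R v) (bb R v) (n % 6) + (n / 6 : ℕ) * (2 * π) -
        (Psi (R v) (bb R v) (m % 6) + (m / 6 : ℕ) * (2 * π)) =
        Psi (R v) (bb R v) (n % 6) - Psi (R v) (bb R v) (m % 6) +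
          ((((n / 6 : ℕ) : ℤ) - ((m / 6 : ℕ) : ℤ) : ℤ) : ℝ) * (2 * π) := by
      rw [Int.cast_sub, Int.cast_natCast, Int.cast_natCast]; ring
    rw [e, cos_add_int_mul_two_pi]
  rw [hcos, hsg n, hsg m]
  have hn : n % 6 < 6 := Nat.mod_lt _ (by norm_num)
  have hm : m % 6 < 6 := Nat.mod_lt _ (by norm_num)
  generalize n % 6 = i at *
  generalize m % 6 = j at *
  have hdisj := h2 v (i := some ⟨i, hn⟩) (j := some ⟨j, hm⟩) (by simp [hnm])
  unfold flower at hdisj
  simp only at hdisj
  rw [disjoint_ball_ball_iff (hpos _) (hpos _), dist_eq_norm] at hdisj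
  have ci : Fin.ofNat 6 i = ⟨i, hn⟩ := by
    apply Fin.ext; simp [Fin.ofNat, Nat.mod_eq_of_lt hn]
  have cj : Fin.ofNat 6 j = ⟨j, hm⟩ := by
    apply Fin.ext; simp [Fin.ofNat, Nat.mod_eq_of_lt hm]
  have bi : bb R v i = R (nb v ⟨i, hn⟩) := by unfold bb; rw [ci]; rfl
  have bj : bb R v j = R (nb v ⟨j, hm⟩) := by unfold bb; rw [cj]; rfl
  have hsq : (bb R v i + bb R v j) ^ 2 ≤ (R v + bb R v i) ^ 2 + (R v + bb R v j) ^ 2 -
      2 * (R v + bb R v i) * (R v + bb R v j) *
        cos (Psi (R v) (bb R v) i - Psi (R v) (bb R v) j) := by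
    have q1 : Psi (R v) (bb R v) i = ∑ l ∈ Finset.Iio (⟨i, hn⟩ : Fin 6), faceAngle R v l := by
      rw [Psi_eq, ← Iio_eq]
    have q2 : Psi (R v) (bb R v) j = ∑ l ∈ Finset.Iio (⟨j, hm⟩ : Fin 6), faceAngle R v l := by
      rw [Psi_eq, ← Iio_eq]
    rw [← norm_sq_sub, q1, q2, bi, bj]
    have hp1 := hpos (nb v ⟨i, hn⟩)
    have hp2 := hpos (nb v ⟨j, hm⟩)
    exact pow_le_pow_left₀ (by positivity) hdisj 2
  have p0 := hpos v
  have p1 : 0 < bb R v i := hpos _
  have p2 : 0 < bb R v j := hpos _
  unfold sg
  generalize bb R v i = x at *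
  generalize bb R v j = y at *
  generalize R v = a at *
  have e : 1 - 2 * (x / (a + x) * (y / (a + y))) =
      ((a + x) ^ 2 + (a + y) ^ 2 - (x + y) ^ 2) / (2 * (a + x) * (a + y)) := by
    have : a + x ≠ 0 := by positivity
    have : a + y ≠ 0 := by positivity
    field_simp
    ring
  rw [e, le_div_iff₀ (by positivity)]
  linarith

/-- Sanity check: the regular hexagonal packing is a locally univalent packing. -/
theorem regular_packing : IsPackingLabel (fun _ => 1) ∧ LocallyUnivalent (fun _ => 1) := by
  have hf : ∀ v i, faceAngle (fun _ => 1) v i = π / 3 := by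
    intro v i
    unfold faceAngle
    norm_num
    rw [← cos_pi_div_three]
    exact arccos_cos (by positivity) (by linarith [pi_pos])
  refine ⟨⟨fun _ => one_pos, fun v => ?_⟩, fun v => ?_⟩
  · simp only [hf, sum_const, card_univ, Fintype.card_fin]
    ring
  · have hc : ∀ i : Fin 6, petalCentre (fun _ => 1) v i =
        ((2 : ℝ) : ℂ) * Complex.exp (((i.val * (π / 3) : ℝ) : ℂ) * Complex.I) := by
      intro i
      unfold petalCentre
      simp only [hf, sum_const, Fin.card_Iio, nsmul_eq_mul]
      norm_num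
    have hcos : ∀ d : ℕ, 1 ≤ d → d ≤ 5 → cos (d * (π / 3)) ≤ 1 / 2 := by
      intro d h1 h5
      have c1 := cos_pi_div_three
      interval_cases d
      · rw [show ((1:ℕ):ℝ) * (π / 3) = π / 3 by push_cast; ring, c1]
      · rw [show ((2:ℕ):ℝ) * (π / 3) = π - π / 3 by push_cast; ring, cos_pi_sub, c1]; norm_num
      · rw [show ((3:ℕ):ℝ) * (π / 3) = π by push_cast; ring, cos_pi]; norm_num
      · rw [show ((4:ℕ):ℝ) * (π / 3) = π / 3 + π by push_cast; ring, cos_add_pi, c1]; norm_num
      · rw [show ((5:ℕ):ℝ) * (π / 3) = 2 * π - π / 3 by push_cast; ring, cos_two_pi_sub, c1]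
    have key : ∀ i j : Fin 6, i < j →
        (2:ℝ) ≤ dist (petalCentre (fun _ => 1) v j) (petalCentre (fun _ => 1) v i) := by
      intro i j hij
      rw [dist_eq_norm]
      apply abs_le_of_sq_le_sq' _ (norm_nonneg _) |>.2
      rw [hc, hc, norm_sq_sub]
      have := hcos (j.val - i.val) (by have := Fin.lt_def.1 hij; omega) (by omega)
      rw [Nat.cast_sub (by have := Fin.lt_def.1 hij; omega), sub_mul] at this
      linarith
    have key0 : ∀ i : Fin 6, dist (0:ℂ) (petalCentre (fun _ => 1) v i) = 2 := by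
      intro i
      rw [dist_eq_norm, zero_sub, norm_neg, hc, norm_mul, Complex.norm_exp_ofReal_mul_I]
      norm_num
    intro i j hij
    rcases i with _ | i <;> rcases j with _ | j
    · exact absurd rfl hij
    · show Disjoint (Metric.ball 0 1) (Metric.ball (petalCentre (fun _ => 1) v j) 1)
      rw [disjoint_ball_ball_iff one_pos one_pos, key0]; norm_num
    · show Disjoint (Metric.ball (petalCentre (fun _ => 1) v i) 1) (Metric.ball 0 1)
      rw [disjoint_ball_ball_iff one_pos one_pos, dist_comm, key0]; norm_num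
    · show Disjoint (Metric.ball (petalCentre (fun _ => 1) v i) 1)
        (Metric.ball (petalCentre (fun _ => 1) v j) 1)
      rw [disjoint_ball_ball_iff one_pos one_pos]
      have hne : i ≠ j := fun h => hij (by rw [h])
      rcases lt_or_gt_of_ne hne with h | h
      · rw [dist_comm]; linarith [key i j h]
      · linarith [key j i h]

/-- **Theorem.** Every locally univalent circle packing for the hexagonal complex has a label of the
form `R(v_{n,m}) = c a^n b^m`: it is a regular hexagonal packing or a Doyle spiral. -/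
theorem result (R : ℤ × ℤ → ℝ) (h1 : IsPackingLabel R) (h2 : LocallyUnivalent R) :
    ∃ a b c : ℝ, 0 < a ∧ 0 < b ∧ 0 < c ∧ ∀ n m : ℤ, R (n, m) = c * a ^ n * b ^ m := by
  have hpos := h1.1
  have hring : ∀ v i, gg 5 * R v ≤ R (v + dir i) := by
    intro v i
    have := ring_lemma (fl_of h1 h2 v) i.val
    unfold bb at this
    have e : Fin.ofNat 6 i.val = i := by
      apply Fin.ext; simp [Fin.ofNat]
    rwa [e] at this
  have hopp : ∀ v i, v + dir i + dir (i + 3) = v := by
    rintro ⟨n, m⟩ i
    fin_cases i <;> simp [dir]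
  set K : ℝ := -log (gg 5) with hK
  have hg := gg_pos 5
  have hlip : ∀ v i, |log (R v) - log (R (v + dir i))| ≤ K := by
    intro v i
    have a1 := log_le_log (by have := hpos v; positivity) (hring v i)
    have a2 := log_le_log (by have := hpos (v + dir i); positivity) (hring (v + dir i) (i + 3))
    rw [hopp, log_mul hg.ne' (hpos _).ne'] at a2
    rw [log_mul hg.ne' (hpos _).ne'] at a1
    rw [abs_le]
    constructor <;> linarith
  -- the difference of the label and a translate
  have hconst : ∀ e : ℤ × ℤ, (∃ i, e = dir i) → ∀ v, log (R (v + e)) - log (R v) =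
      log (R e) - log (R 0) := by
    rintro e ⟨i, rfl⟩
    set r : ℤ × ℤ → ℝ := fun v => log (R v) with hr
    set u : ℤ × ℤ → ℝ := fun v => log (R (v + dir i)) - log (R v) with hu
    have hru : ∀ v, r v + u v = log (R (v + dir i)) := fun v => by simp only [hr, hu]; ring
    have hth : ∀ v, th r v = 2 * π := by
      intro v
      rw [← h1.2 v]
      unfold th
      apply sum_congr rfl
      intro j _
      rw [faceAngle_eq, ← ang_exp]
      simp only [hr]
      rw [exp_log (hpos _), exp_log (hpos _), exp_log (hpos _)]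
    have D : Dat r u K K := by
      refine ⟨fun v j => hlip v j, ?_, ?_, ?_⟩
      · intro v j
        rw [hru, hru, add_right_comm v (dir j) (dir i)]
        exact hlip (v + dir i) j
      · intro v
        simp only [hu]
        rw [abs_sub_comm]
        exact hlip v i
      · intro v
        rw [hth v, ← hth (v + dir i)]
        unfold th
        apply sum_congr rfl
        intro j _
        simp only [hru]
        simp only [hr]
        rw [add_right_comm v (dir j) (dir i), add_right_comm v (dir (j + 1)) (dir i)]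
    have hL := fun v => liouville' D v
    have hall : ∀ n m : ℤ, u (n, m) = u 0 := by
      have s1 : ∀ n m : ℤ, u (n + 1, m) = u (n, m) := fun n m => by
        have := (hL (n, m)).1
        simpa using this
      have s2 : ∀ n m : ℤ, u (n, m + 1) = u (n, m) := fun n m => by
        have := (hL (n, m)).2
        simpa using this
      have t1 : ∀ n m : ℤ, u (n, m) = u (0, m) := by
        intro n m
        induction n using Int.induction_on with
        | zero => rfl
        | succ k ih => rw [s1, ih]
        | pred k ih => rw [← ih, ← s1 (-(k:ℤ) - 1) m]; congr 2; ring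
      have t2 : ∀ m : ℤ, u (0, m) = u (0, 0) := by
        intro m
        induction m using Int.induction_on with
        | zero => rfl
        | succ k ih => rw [s2, ih]
        | pred k ih => rw [← ih, ← s2 0 (-(k:ℤ) - 1)]; congr 2; ring
      intro n m
      rw [t1, t2]; rfl
    rintro ⟨n, m⟩
    have := hall n m
    simp only [hu] at this
    simpa using this
  set A : ℝ := exp (log (R (dir 0)) - log (R 0)) with hA
  set B : ℝ := exp (log (R (dir 1)) - log (R 0)) with hB
  have hA0 : 0 < A := exp_pos _
  have hB0 : 0 < B := exp_pos _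
  have s1 : ∀ n m : ℤ, R (n + 1, m) = A * R (n, m) := by
    intro n m
    have h := hconst (dir 0) ⟨0, rfl⟩ (n, m)
    have e : ((n, m) : ℤ × ℤ) + dir 0 = (n + 1, m) := by simp [dir]
    rw [e] at h
    rw [hA, ← h, exp_sub, exp_log (hpos _), exp_log (hpos _)]
    field_simp [(hpos (n, m)).ne']
  have s2 : ∀ n m : ℤ, R (n, m + 1) = B * R (n, m) := by
    intro n m
    have h := hconst (dir 1) ⟨1, rfl⟩ (n, m)
    have e : ((n, m) : ℤ × ℤ) + dir 1 = (n, m + 1) := by simp [dir]
    rw [e] at h
    rw [hB, ← h, exp_sub, exp_log (hpos _), exp_log (hpos _)]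
    field_simp [(hpos (n, m)).ne']
  refine ⟨A, B, R (0, 0), hA0, hB0, hpos _, ?_⟩
  have t1 : ∀ n m : ℤ, R (n, m) = R (0, m) * A ^ n := by
    intro n m
    induction n using Int.induction_on with
    | zero => simp
    | succ k ih => rw [s1, ih, zpow_add_one₀ hA0.ne']; ring
    | pred k ih =>
      have h := s1 (-(k:ℤ) - 1) m
      rw [sub_add_cancel, ih] at h
      rw [zpow_sub_one₀ hA0.ne']
      field_simp
      linarith
  have t2 : ∀ m : ℤ, R (0, m) = R (0, 0) * B ^ m := by
    intro m
    induction m using Int.induction_on with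
    | zero => simp
    | succ k ih => rw [s2, ih, zpow_add_one₀ hB0.ne']; ring
    | pred k ih =>
      have h := s2 0 (-(k:ℤ) - 1)
      rw [sub_add_cancel, ih] at h
      rw [zpow_sub_one₀ hB0.ne']
      field_simp
      linarith
  intro n m
  rw [t1, t2]
  ring

end Pool.Agent.Results.MP_5725d1_gt.DoyleRigidity
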